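import Pool.Agent.W96.CL.Stm
set_option autoImplicit false

open Matrix

namespace W96CL
namespace SUBM

lemma cutS_mono {n : ℕ} (k : Fin n) {r s : Setoid (Option (Fin n))} (h : r ≤ s) :
    cutS k r ≤ cutS k s := by
  intro a b hab
  rcases hab with h1 | ⟨h1, h2, h3⟩
  · exact Or.inl h1
  · exact Or.inr ⟨h1, h2, h h3⟩

lemma joinS_mono {n : ℕ} (k l : Fin n) {r s : Setoid (Option (Fin n))} (h : r ≤ s) :
    joinS k l r ≤ joinS k l s := by
  intro a b hab
  rcases hab with h1 | ⟨h1, h2⟩ | ⟨h1, h2⟩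
  · exact Or.inl (h h1)
  · exact Or.inr (Or.inl ⟨h h1, h h2⟩)
  · exact Or.inr (Or.inr ⟨h h1, h h2⟩)

lemma gen_mono {n i : ℕ} {r s : Setoid (Option (Fin n))} (h : r ≤ s) :
    gen n i r ≤ gen n i s := by
  unfold gen
  split_ifs
  · exact cutS_mono _ h
  · exact joinS_mono _ _ h
  · exact h

lemma reach_alive {n : ℕ} (hn : 1 ≤ n) {r : Setoid (Option (Fin n))} (hr : Reach n r) :
    alive r := by
  cases hr with
  | top => exact ⟨⟨0, hn⟩, trivial⟩
  | gen i r hr ha => exact ha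

lemma alive_mono {n : ℕ} {r s : Setoid (Option (Fin n))} (h : r ≤ s) (ha : alive r) : alive s := by
  obtain ⟨k, hk⟩ := ha
  exact ⟨k, h hk⟩

/-- nonnegative and increasing -/
def Good (n : ℕ) (f : St n → ℝ) : Prop :=
  (∀ s, 0 ≤ f s) ∧ ∀ s t : St n, s.1 ≤ t.1 → f s ≤ f t

open Classical in
lemma vec_ER {n : ℕ} (i : ℕ) (f : St n → ℝ) (σ : St n) :
    (f ᵥ* ER n i) σ = if h : Reach n (gen n i σ.1) then f ⟨gen n i σ.1, h⟩ else 0 := by
  have h0 : (f ᵥ* ER n i) σ = ∑ τ : St n, f τ * ER n i τ σ := by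
    simp [Matrix.vecMul, dotProduct]
  rw [h0]
  split_ifs with h
  · rw [Finset.sum_eq_single ⟨gen n i σ.1, h⟩]
    · simp [ER]
    · intro τ _ hτ
      have : gen n i σ.1 ≠ τ.1 := fun h' => hτ (Subtype.ext h'.symm)
      simp [ER, this]
    · intro h'
      exact absurd (Finset.mem_univ _) h'
  · refine Finset.sum_eq_zero fun τ _ => ?_
    have : gen n i σ.1 ≠ τ.1 := fun h' => h (h' ▸ τ.2)
    simp [ER, this]

lemma good_ER {n : ℕ} (hn : 1 ≤ n) (i : ℕ) (f : St n → ℝ) (hf : Good n f) :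
    Good n (f ᵥ* ER n i) := by
  constructor
  · intro s
    rw [vec_ER]
    split_ifs
    · exact hf.1 _
    · exact le_rfl
  · intro s t hst
    rw [vec_ER, vec_ER]
    have hg := gen_mono (i := i) hst
    by_cases h1 : Reach n (gen n i s.1)
    · have h2 : Reach n (gen n i t.1) :=
        Reach.gen i t.1 t.2 (alive_mono hg (reach_alive hn h1))
      rw [dif_pos h1, dif_pos h2]
      exact hf.2 _ _ hg
    · rw [dif_neg h1]
      split_ifs
      · exact hf.1 _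
      · exact le_rfl

lemma good_face {n : ℕ} (hn : 1 ≤ n) (p : ℝ) (hp0 : 0 ≤ p) (hp1 : p ≤ 1) (i : ℕ)
    (f : St n → ℝ) (hf : Good n f) :
    Good n (f ᵥ* (p • (1 : Matrix (St n) (St n) ℝ) + (1 - p) • ER n i)) := by
  have h1 : f ᵥ* (p • (1 : Matrix (St n) (St n) ℝ) + (1 - p) • ER n i)
      = p • f + (1 - p) • (f ᵥ* ER n i) := by
    rw [Matrix.vecMul_add, Matrix.vecMul_smul, Matrix.vecMul_smul, Matrix.vecMul_one]
  rw [h1]
  have h2 := good_ER hn i f hf
  have h3 : 0 ≤ 1 - p := by linarith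
  constructor
  · intro s
    simp only [Pi.add_apply, Pi.smul_apply, smul_eq_mul]
    exact add_nonneg (mul_nonneg hp0 (hf.1 s)) (mul_nonneg h3 (h2.1 s))
  · intro s t hst
    simp only [Pi.add_apply, Pi.smul_apply, smul_eq_mul]
    exact add_le_add (mul_le_mul_of_nonneg_left (hf.2 s t hst) hp0)
      (mul_le_mul_of_nonneg_left (h2.2 s t hst) h3)

lemma good_lay {n : ℕ} (hn : 1 ≤ n) (p : ℝ) (hp0 : 0 ≤ p) (hp1 : p ≤ 1) (m : ℕ) :
    ∀ (i : ℕ) (f : St n → ℝ), Good n f → Good n (f ᵥ* layR n p i m) := by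
  induction m with
  | zero =>
    intro i f hf
    simpa [layR] using hf
  | succ m ih =>
    intro i f hf
    rw [layR, ← Matrix.vecMul_vecMul]
    exact ih _ _ (good_face hn p hp0 hp1 i f hf)

lemma good_TT {n : ℕ} (hn : 1 ≤ n) (p : ℝ) (hp0 : 0 ≤ p) (hp1 : p ≤ 1)
    (f : St n → ℝ) (hf : Good n f) : Good n (f ᵥ* TT n p) := by
  rw [TT, ← Matrix.vecMul_vecMul]
  exact good_lay hn p hp0 hp1 _ _ _ (good_lay hn p hp0 hp1 _ _ _ hf)

lemma good_pow {n : ℕ} (hn : 1 ≤ n) (p : ℝ) (hp0 : 0 ≤ p) (hp1 : p ≤ 1) (m : ℕ)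
    (f : St n → ℝ) (hf : Good n f) : Good n (f ᵥ* TT n p ^ m) := by
  induction m with
  | zero => simpa using hf
  | succ m ih =>
    rw [pow_succ, ← Matrix.vecMul_vecMul]
    exact good_TT hn p hp0 hp1 _ ih

lemma ER_nonneg {n i : ℕ} (a b : St n) : 0 ≤ ER n i a b := by
  simp only [ER]
  split_ifs
  · exact zero_le_one
  · exact le_rfl

lemma mul_nonneg' {n : ℕ} {P Q : Matrix (St n) (St n) ℝ} (hP : ∀ a b, 0 ≤ P a b)
    (hQ : ∀ a b, 0 ≤ Q a b) (a b : St n) : 0 ≤ (P * Q) a b := by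
  rw [Matrix.mul_apply]
  exact Finset.sum_nonneg fun c _ => mul_nonneg (hP _ _) (hQ _ _)

lemma one_nonneg' {n : ℕ} (a b : St n) : 0 ≤ (1 : Matrix (St n) (St n) ℝ) a b := by
  rw [Matrix.one_apply]
  split_ifs
  · exact zero_le_one
  · exact le_rfl

lemma layR_nonneg {n : ℕ} (p : ℝ) (hp0 : 0 ≤ p) (hp1 : p ≤ 1) (m : ℕ) :
    ∀ (i : ℕ) (a b : St n), 0 ≤ layR n p i m a b := by
  induction m with
  | zero =>
    intro i a b
    exact one_nonneg' a b
  | succ m ih =>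
    intro i a b
    rw [layR]
    refine mul_nonneg' (fun a b => ?_) (ih (i + 2)) a b
    have h3 : 0 ≤ 1 - p := by linarith
    simp only [Matrix.add_apply, Matrix.smul_apply, smul_eq_mul]
    exact add_nonneg (mul_nonneg hp0 (one_nonneg' a b)) (mul_nonneg h3 (ER_nonneg a b))

lemma TT_nonneg {n : ℕ} (p : ℝ) (hp0 : 0 ≤ p) (hp1 : p ≤ 1) (a b : St n) : 0 ≤ TT n p a b :=
  mul_nonneg' (layR_nonneg p hp0 hp1 _ _) (layR_nonneg p hp0 hp1 _ _) a b

lemma pow_nonneg' {n : ℕ} (p : ℝ) (hp0 : 0 ≤ p) (hp1 : p ≤ 1) (m : ℕ) :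
    ∀ a b : St n, 0 ≤ (TT n p ^ m) a b := by
  induction m with
  | zero => intro a b; simpa using one_nonneg' a b
  | succ m ih =>
    intro a b
    rw [pow_succ]
    exact mul_nonneg' ih (TT_nonneg p hp0 hp1) a b

/-- the positive weight of the configuration where everything is open -/
lemma wgt_nonneg (p : ℝ) (h0 : 0 ≤ p) (h1 : p ≤ 1) {a b : ℕ} (ω : Edg a b → Bool) :
    0 ≤ wgt p ω := by
  have h3 : 0 ≤ 1 - p := by linarith
  refine mul_nonneg (Finset.prod_nonneg fun e _ => ?_) (Finset.prod_nonneg fun e _ => ?_) <;>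
  · split_ifs <;> assumption

lemma wgt_top_pos (p : ℝ) (h0 : 0 < p) (h1 : p < 1) (a b : ℕ) :
    0 < wgt p (fun _ : Edg a b => true) := by
  have h3 : 0 < 1 - p := by linarith
  refine mul_pos (Finset.prod_pos fun e _ => ?_) (Finset.prod_pos fun e _ => ?_)
  · simpa using h0
  · simpa using h3

lemma cross_top (a b : ℕ) : Cross (fun _ : Edg a b => true) := by
  refine ⟨0, 0, Nat.zero_le _, Nat.zero_le _, ?_⟩
  have h : ∀ m : ℕ, m ≤ a → Relation.EqvGen (Step (fun _ : Edg a b => true)) (0, 0) (m, 0) := by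
    intro m
    induction m with
    | zero => intro _; exact Relation.EqvGen.refl _
    | succ m ih =>
      intro hm
      refine Relation.EqvGen.trans _ _ _ (ih (by omega)) (Relation.EqvGen.rel _ _ ?_)
      have := Step.hor (ω := fun _ : Edg a b => true) (⟨m, by omega⟩ : Fin a)
        (⟨0, Nat.succ_pos b⟩ : Fin (b + 1)) rfl
      exact this
  exact h a le_rfl

lemma prob_pos (p : ℝ) (h0 : 0 < p) (h1 : p < 1) (a b : ℕ) : 0 < prob p a b := by
  unfold prob
  refine Finset.sum_pos' (fun ω _ => ?_) ⟨fun _ => true, Finset.mem_univ _, ?_⟩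
  · split_ifs
    · exact wgt_nonneg p h0.le h1.le ω
    · exact le_rfl
  · rw [if_pos (cross_top a b)]
    exact wgt_top_pos p h0 h1 a b

end SUBM

open SUBM in
theorem cl_sub (h : S_link) : S_sub := by
  intro p hp0 hp1 b
  refine ⟨fun a => prob_pos p hp0 hp1 a b, fun a a' => ?_, ?_⟩
  · rw [h p (a + a') b, h p a b, h p a' b]
    set T := TT (b + 1) p with hT
    have hn : 1 ≤ b + 1 := by omega
    have hgood : Good (b + 1) ((fun _ => (1 : ℝ)) ᵥ* T ^ a') :=
      good_pow hn p hp0.le hp1.le a' _ ⟨fun _ => zero_le_one, fun _ _ _ => le_rfl⟩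
    have hw : ∀ (m : ℕ) (σ : St (b + 1)), ((fun _ => (1 : ℝ)) ᵥ* T ^ m) σ
        = ∑ τ, (T ^ m) τ σ := by
      intro m σ
      simp [Matrix.vecMul, dotProduct]
    rw [add_comm a a', pow_add]
    have h1 : ∑ τ, (T ^ a' * T ^ a) τ (st0 (b + 1))
        = ∑ σ, (∑ τ, (T ^ a') τ σ) * (T ^ a) σ (st0 (b + 1)) := by
      simp only [Matrix.mul_apply]
      rw [Finset.sum_comm]
      exact Finset.sum_congr rfl fun σ _ => by rw [Finset.sum_mul]
    rw [h1, mul_comm (∑ τ, (T ^ a) τ (st0 (b + 1))), Finset.mul_sum]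
    refine Finset.sum_le_sum fun σ _ => ?_
    refine mul_le_mul_of_nonneg_right ?_ (pow_nonneg' p hp0.le hp1.le a _ _)
    rw [← hw, ← hw]
    exact hgood.2 _ _ le_top
  · rw [h p 0 b]
    simp [Matrix.one_apply]

end W96CL
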